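import Pool.Agent.Y797.IV.Sim
import Pool.Agent.Y797.IV.Def
import Pool.Agent.Y797.IV.Unr
import Pool.Agent.Y797.CY.Unr
import Pool.Agent.TH826.DC.Final
set_option autoImplicit false

/-!
The double covers `z + 1/z = λ ∏_e L_e` for arrangements in general position whose vertices become
integral after multiplication by `D`, `λ = μ D ^ (m + 1)`: the symbols of the simplices are
unramified.
-/

namespace Pool.Agent.Y778.DC

open scoped WithZero

open Pool.Agent.TH826.MK (KQ symb Unramified unitPart)

open Pool.Agent.TH826.GA (cm vtx gam ku coe_ku)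

open Pool.Agent.TH826.DC

open Pool.Agent.Y797.IV (Clears GenPos fx simplex_x_le simplex_val)

open Pool.Agent.Y797.CY (gam_ne)

variable {K : Type*} [Field K] {d m : ℕ} {lam : K}
  {c : Fin (m + 1) → Fin (d + 1) → K} {a : Fin (m + 1) → K}

variable {L : Type*} [Field L] (f : DOpen lam c a →+* L)

theorem map_dg' (hG : GenPos c a) {S : Fin (d + 2) → Fin (m + 1)} (hS : Function.Injective S)
    (i : Fin (d + 2)) : f (dg lam c a S i : DOpen lam c a) =
      cD f (gam c S i) * fx (cD f) (xD f) c a (S i) := by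
  unfold dg
  rw [Units.val_mul, map_mul, map_du]
  congr 1
  rw [Units.coe_map]
  show f (dcst lam c a (ku (gam c S i) : K)) = _
  rw [coe_ku (gam_ne hG hS i)]
  rfl

/-- The symbols are unramified at all discrete valuations. -/
theorem symb_mem_unitPart (hG : GenPos c a) (hc : ∀ e j, IsIntegral ℤ (c e j))
    (ha : ∀ e, IsIntegral ℤ (a e)) {D mu : K} (hD : Clears c a D) (hmu : IsIntegral ℤ mu)
    (hlam : lam = mu * D ^ (m + 1))
    (v : Valuation L ℤᵐ⁰) {S : Fin (d + 2) → Fin (m + 1)} (hS : Function.Injective S) :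
    symb (fun l => Units.map (f : DOpen lam c a →* L) (dent lam c a S l)) ∈
      unitPart v (d + 2) := by
  classical
  obtain ⟨hD0, hDi, hDv⟩ := hD
  have hci : ∀ x : K, IsIntegral ℤ x → v (cD f x) ≤ 1 := fun x hx =>
    Pool.Agent.TH826.MK.val_le_one_of_integral v (map_isIntegral_int _ hx)
  set z : Fin (d + 2) → Lˣ := fun k => Units.map (f : DOpen lam c a →* L) (dg lam c a S k) with hz
  set w : Lˣ := Units.map (f : DOpen lam c a →* L) (uz lam c a) with hw
  have hwv : (w : L) = zD f := rfl
  have hzv : ∀ k, (z k : L) = cD f (gam c S k) * fx (cD f) (xD f) c a (S k) :=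
    fun k => map_dg' f hG hS k
  have hent : (fun l => Units.map (f : DOpen lam c a →* L) (dent lam c a S l)) =
      (Fin.cons w fun l : Fin (d + 1) => z l.succ / z 0 : Fin (d + 2) → Lˣ) := by
    funext l
    refine Fin.cases ?_ (fun l => ?_) l
    · rfl
    · rw [Fin.cons_succ]
      exact map_div (Units.map (f : DOpen lam c a →* L)) _ _
  rw [hent]
  have hsum : ∑ k, (z k : L) = - cD f (∑ i, gam c S i * a (S i)) := by
    simp only [hzv]
    exact Pool.Agent.Y797.IV.sum_gx (cD f) (xD f) S
  by_cases hB : ∃ k, v (cD f (∑ i, gam c S i * a (S i))) < v (z k : L)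
  · obtain ⟨k, hk⟩ := hB
    obtain ⟨l, -, hl⟩ := Finset.exists_max_image Finset.univ (fun k => v (z k : L))
      ⟨k, Finset.mem_univ k⟩
    refine cons_mem_unitPart_of_sum_lt v w z l (fun k => hl k (Finset.mem_univ k)) ?_
    rw [hsum, Valuation.map_neg]
    exact hk.trans_le (hl k (Finset.mem_univ k))
  · push Not at hB
    have hB' : ∀ k, v (cD f (gam c S k) * fx (cD f) (xD f) c a (S k)) ≤
        v (cD f (∑ i, gam c S i * a (S i))) := fun k => by
      rw [← hzv]
      exact hB k
    have hDL : v (cD f D) ≠ 0 := by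
      rw [Valuation.ne_zero_iff]
      exact (map_ne_zero _).2 hD0
    have hDle : v (cD f D) ≤ 1 := hci _ hDi
    set B : ℤᵐ⁰ := (v (cD f D))⁻¹ with hBdef
    have hB1 : 1 ≤ B := (one_le_inv₀ (zero_lt_iff.2 hDL)).2 hDle
    have hDB : v (cD f D) * B = 1 := mul_inv_cancel₀ hDL
    have hvt : ∀ T' : Fin (d + 1) → Fin (m + 1), (cm c T').det ≠ 0 → ∀ j,
        v (cD f (vtx c a T' j)) ≤ B := by
      intro T' hT' j
      have h1 := hci _ (hDv T' hT' j)
      rw [map_mul, map_mul, mul_comm] at h1
      exact (le_mul_inv_iff₀ (zero_lt_iff.2 hDL)).2 (by simpa using h1) |>.trans_eq (one_mul _)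
    have hft : ∀ T' : Fin (d + 1) → Fin (m + 1), (cm c T').det ≠ 0 → ∀ e,
        v (cD f (∑ j, c e j * vtx c a T' j - a e)) ≤ B := by
      intro T' hT' e
      rw [map_sub, map_sum]
      refine (v.map_sub _ _).trans (max_le ?_ ((hci _ (ha e)).trans hB1))
      refine Valuation.map_sum_le v fun j _ => ?_
      rw [map_mul, map_mul]
      exact (mul_le_mul' (hci _ (hc e j)) (hvt T' hT' j)).trans_eq (one_mul _)
    have hx : ∀ j, v (xD f j) ≤ B := fun j => simplex_x_le v hG.1 hG.2 hS hB' hvt j
    have hle : ∀ e, v (lD f e) ≤ B := by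
      intro e
      refine (v.map_sub _ _).trans (max_le ?_ ((hci _ (ha e)).trans hB1))
      refine Valuation.map_sum_le v fun j _ => ?_
      rw [map_mul]
      exact (mul_le_mul' (hci _ (hc e j)) (hx j)).trans_eq (one_mul _)
    have hle1 : ∀ e, v (cD f D) * v (lD f e) ≤ 1 := fun e =>
      (mul_le_mul' le_rfl (hle e)).trans_eq hDB
    have hPeq : v (cD f lam * ∏ e, lD f e) = v (cD f mu) * ∏ e, (v (cD f D) * v (lD f e)) := by
      have hl2 : cD f lam = cD f mu * cD f D ^ (m + 1) := by
        rw [← map_pow, ← map_mul]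
        exact congrArg (cD f) hlam
      rw [hl2, map_mul, map_mul, map_pow, map_prod, Finset.prod_mul_distrib, Finset.prod_const,
        Finset.card_univ, Fintype.card_fin, mul_assoc]
    have hPhi : v (cD f lam * ∏ e, lD f e) ≤ 1 := by
      rw [hPeq]
      exact mul_le_one' (hci _ hmu) (Finset.prod_le_one' fun e _ => hle1 e)
    have hq := zD_eq f
    have hq0 := zD_ne_zero f
    set q := zD f with hqdef
    set P := cD f lam * ∏ e, lD f e with hP
    have hq1 : v q = 1 := by
      rcases lt_trichotomy (v q) 1 with h | h | h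
      · exfalso
        have h1 : v (q ^ 2 + 1) = 1 := by
          rw [add_comm]
          refine Valuation.map_one_add_of_lt v ?_
          rw [map_pow]
          exact pow_lt_one₀ zero_le h (by norm_num)
        rw [hq, map_mul] at h1
        have h2 : v P * v q < 1 := by
          calc v P * v q ≤ 1 * v q := mul_le_mul_left hPhi _
            _ = v q := one_mul _
            _ < 1 := h
        exact h2.ne h1
      · exact h
      · exfalso
        have h1 : v (q ^ 2 + 1) = v q ^ 2 := by
          rw [← map_pow]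
          refine Valuation.map_add_eq_of_lt_left v ?_
          rw [map_one, map_pow]
          exact one_lt_pow₀ h (by norm_num)
        rw [hq, map_mul, pow_two] at h1
        have h2 : v P = v q := mul_right_cancel₀ ((Valuation.ne_zero_iff v).2 hq0) h1
        rw [h2] at hPhi
        exact absurd h (not_lt.2 hPhi)
    by_cases hP1 : v P = 1
    · rw [hPeq] at hP1
      obtain ⟨-, hl1⟩ := Pool.Agent.TH333.CY.all_one hle1 (hci _ hmu) hP1
      have hall : ∀ e, v (fx (cD f) (xD f) c a e) = B := by
        intro e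
        have h1 : v (cD f D) * v (fx (cD f) (xD f) c a e) = 1 := hl1 e
        rw [hBdef]
        exact eq_inv_of_mul_eq_one_right h1
      have h0 : v (cD f (∑ i, gam c S i * a (S i))) ≠ 0 := by
        rw [Valuation.ne_zero_iff]
        exact (map_ne_zero _).2 (Pool.Agent.TH826.GA.const_ne hG.1 hG.2 hS)
      refine Submodule.subset_span ⟨_, fun l => ?_, rfl⟩
      refine Fin.cases ?_ (fun l => ?_) l
      · exact hq1
      · rw [Fin.cons_succ, Units.val_div_eq_div_val, map_div₀, hzv, hzv,
          simplex_val v hG.1 hS hB' hft hall, simplex_val v hG.1 hS hB' hft hall, div_self h0]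
    · have hPlt : v P < 1 := lt_of_le_of_ne hPhi hP1
      refine Pool.Agent.TH826.MK.mem_unitPart_of_pow v 0 (m := 4) _ (by norm_num) ?_
      rw [Fin.cons_zero, hwv]
      have e : q ^ 4 - 1 = (q ^ 2 + 1) * (q ^ 2 - 1) := by ring
      rw [e, hq, map_mul, map_mul, hq1, mul_one]
      have h5 : v (q ^ 2 - 1) ≤ 1 := by
        refine (v.map_sub _ _).trans ?_
        rw [map_pow, hq1, one_pow, map_one, max_self]
      exact mul_lt_one_of_lt_of_le hPlt h5

theorem symb_mem_unramified (hG : GenPos c a) (hc : ∀ e j, IsIntegral ℤ (c e j))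
    (ha : ∀ e, IsIntegral ℤ (a e)) {D mu : K} (hD : Clears c a D) (hmu : IsIntegral ℤ mu)
    (hlam : lam = mu * D ^ (m + 1))
    {S : Fin (d + 2) → Fin (m + 1)} (hS : Function.Injective S) :
    KQ.map (d + 2) f (symb (dent lam c a S)) ∈ Unramified L (d + 2) := by
  rw [KQ.map_symb]
  unfold Unramified
  simp only [Submodule.mem_iInf]
  intro v _
  exact symb_mem_unitPart f hG hc ha hD hmu hlam v hS

end Pool.Agent.Y778.DC
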